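import Pool.Agent.K6.H17.LC.Vas

/-!
# The state model below two strands
-/

set_option autoImplicit false

namespace Pool.Agent.K6.H17.RB

open Pool.Agent.H835R2.Knot (Piece Word Front Fits run comps Move crossingSet switchAt up dn sw
  Closed IsKnot Step Isotopic IsInvariant DegreeLE)
open Pool.Agent.H838R2.SL
open Pool.Agent.H838R2.Jones
open Pool.Agent.Helper454.Wh (insD delD swpD noD OPiece OWord insD_lt insD_gt insD_left insD_right
  delD_lt delD_ge)
open Finset

section
variable {R : Type} [CommRing R] {s s' : R}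

/-- the weight of a state -/
def wt (n : ℕ) (σ : ℕ → Bool) : ℤ := ∑ k ∈ range n, (if σ k then 1 else -1)

theorem wt_ins (i m : ℕ) (c : Bool) (σ : ℕ → Bool) : wt (i + m + 2) (insD i c σ) = wt (i + m) σ := by
  unfold wt
  rw [sum_split, sum_range_add, insD_left, insD_right]
  have h1 : ∑ j ∈ range i, (if insD i c σ j then (1 : ℤ) else -1) =
      ∑ j ∈ range i, (if σ j then (1 : ℤ) else -1) :=
    sum_congr rfl fun j hj => by rw [insD_lt c σ (mem_range.1 hj)]
  have h2 : ∑ q ∈ range m, (if insD i c σ (i + 2 + q) then (1 : ℤ) else -1) =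
      ∑ q ∈ range m, (if σ (i + q) then (1 : ℤ) else -1) :=
    sum_congr rfl fun q _ => by
      have := insD_gt c σ (show i ≤ i + q by omega)
      rw [show i + 2 + q = i + q + 2 by omega, this]
  rw [h1, h2]
  cases c <;> simp

theorem wt_del (i m : ℕ) (σ : ℕ → Bool) (h : σ (i + 1) = !σ i) :
    wt (i + m + 2) σ = wt (i + m) (delD i σ) := by
  unfold wt
  rw [sum_split, sum_range_add, h]
  have h1 : ∑ j ∈ range i, (if delD i σ j then (1 : ℤ) else -1) =
      ∑ j ∈ range i, (if σ j then (1 : ℤ) else -1) :=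
    sum_congr rfl fun j hj => by rw [delD_lt σ (mem_range.1 hj)]
  have h2 : ∑ q ∈ range m, (if delD i σ (i + q) then (1 : ℤ) else -1) =
      ∑ q ∈ range m, (if σ (i + 2 + q) then (1 : ℤ) else -1) :=
    sum_congr rfl fun q _ => by
      rw [delD_ge σ (show i ≤ i + q by omega), show i + q + 2 = i + 2 + q by omega]
  rw [h1, h2]
  cases σ i <;> simp

/-- the function is equivariant, balanced, and depends on the first `n` spins only -/
structure Pr (s s' : R) (n : ℕ) (f : F R) : Prop where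
  inv : Inv s s' n f
  bal : ∀ σ, wt n σ ≠ 0 → f σ = 0
  dep : ∀ σ τ : ℕ → Bool, (∀ k < n, σ k = τ k) → f σ = f τ

theorem Pr.one (s s' : R) : Pr s s' 0 (1 : F R) :=
  ⟨Inv_zero s s' 1, fun _ h => absurd rfl h, fun _ _ _ => rfl⟩

theorem Pr.B (hs : s * s' = 1) {n i : ℕ} (h : i ≤ n) {f : F R} (hf : Pr s s' (n + 2) f) :
    Pr s s' n (Bl s' i f) := by
  refine ⟨Inv_B hs h hf.inv, fun σ hσ => ?_, fun σ τ hστ => ?_⟩
  · obtain ⟨m, rfl⟩ : ∃ m, n = i + m := ⟨n - i, by omega⟩
    rw [Bl_apply, hf.bal _ (by rwa [wt_ins]), hf.bal _ (by rwa [wt_ins])]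
    simp
  · have e : ∀ c, f (insD i c σ) = f (insD i c τ) := by
      intro c
      refine hf.dep _ _ fun k hk => ?_
      simp only [insD]
      split_ifs
      · exact hστ k (by omega)
      · rfl
      · rfl
      · exact hστ (k - 2) (by omega)
    rw [Bl_apply, Bl_apply, e, e]

theorem Pr.D (hs : s * s' = 1) {n i : ℕ} (h : i ≤ n) {f : F R} (hf : Pr s s' n f) :
    Pr s s' (n + 2) (Dl s i f) := by
  refine ⟨Inv_D hs h hf.inv, fun σ hσ => ?_, fun σ τ hστ => ?_⟩
  · obtain ⟨m, rfl⟩ : ∃ m, n = i + m := ⟨n - i, by omega⟩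
    rw [Dl_apply]
    split_ifs with h1 h2
    · rw [hf.bal _ (by rwa [← wt_del i m σ h1]), mul_zero]
    · rw [hf.bal _ (by rwa [← wt_del i m σ h1]), mul_zero]
    · rfl
  · have e : f (delD i σ) = f (delD i τ) := by
      refine hf.dep _ _ fun k hk => ?_
      simp only [delD]
      split_ifs
      · exact hστ k (by omega)
      · exact hστ (k + 2) (by omega)
    rw [Dl_apply, Dl_apply, e, hστ i (by omega), hστ (i + 1) (by omega)]

theorem Pr.X (hs : s * s' = 1) {n i : ℕ} (h : i + 2 ≤ n) (c : R × R) {f : F R}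
    (hf : Pr s s' n f) : Pr s s' n (Xl s s' c i f) := by
  obtain ⟨m, rfl⟩ : ∃ m, n = m + 2 := ⟨n - 2, by omega⟩
  have h1 := Pr.D hs (show i ≤ m by omega) (Pr.B hs (show i ≤ m by omega) hf)
  refine ⟨Inv_X hs h c hf.inv, fun σ hσ => ?_, fun σ τ hστ => ?_⟩
  · rw [Xl_apply, Pi.add_apply, Pi.smul_apply, Pi.smul_apply, hf.bal σ hσ, h1.bal σ hσ]
    simp
  · rw [Xl_apply, Pi.add_apply, Pi.smul_apply, Pi.smul_apply, Pi.add_apply, Pi.smul_apply,
      Pi.smul_apply, hf.dep σ τ hστ, h1.dep σ τ hστ]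

theorem Pr.op (hs : s * s' = 1) (w : Word) (A : Front) (hw : Fits w A) (hn : (run w A).n = 0) :
    Pr s s' A.n (opD s s' w A.dir 1) := by
  induction w generalizing A with
  | nil =>
    have hn : A.n = 0 := hn
    rw [hn]
    exact Pr.one s s'
  | cons p w ih =>
    have h1 := ih (p.act A) hw.2 hn
    have e : opD s s' (p :: w) A.dir 1 = opP s s' (toO p) A.dir (opD s s' w (p.act A).dir 1) := by
      rw [dir_act]
      rfl
    rw [e]
    cases p with
    | birth i b =>
      have h2 : i ≤ A.n := hw.1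
      exact Pr.B hs h2 h1
    | death i =>
      have h2 : i + 2 ≤ A.n ∧ _ := hw.1
      have h3 : A.n = (A.n - 2) + 2 := by omega
      rw [h3]
      exact Pr.D hs (by omega) h1
    | pos i =>
      have h2 : i + 2 ≤ A.n := hw.1
      exact Pr.X hs h2 _ h1
    | neg i =>
      have h2 : i + 2 ≤ A.n := hw.1
      exact Pr.X hs h2 _ h1

/-- On two strands there is only one function, up to factors. -/
theorem Pr.two {f : F R} (hf : Pr s s' 2 f) :
    f = f (insD 0 true (fun _ => false)) • Dl s 0 1 := by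
  funext σ
  rw [Pi.smul_apply, smul_eq_mul, Dl_apply]
  split_ifs with h1 h2
  · rw [one_mul, Pi.one_apply, mul_one]
    refine hf.dep _ _ fun k hk => ?_
    rcases (show k = 0 ∨ k = 1 by omega) with rfl | rfl
    · rw [insD_left, h2]
    · rw [show (1 : ℕ) = 0 + 1 from rfl, insD_right, h1, h2]
  · have h3 := Inv_two hf.inv (fun _ => false)
    rw [Pi.one_apply, mul_one]
    have h4 : f σ = f (insD 0 false (fun _ => false)) := by
      refine hf.dep _ _ fun k hk => ?_
      rcases (show k = 0 ∨ k = 1 by omega) with rfl | rfl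
      · rw [insD_left]
        simpa using h2
      · rw [show (1 : ℕ) = 0 + 1 from rfl, insD_right, h1]
        simpa using h2
    rw [h4, h3]
    ring
  · rw [mul_zero]
    refine hf.bal σ ?_
    unfold wt
    rw [sum_range_succ, sum_range_one]
    cases h0 : σ 0 <;> cases h3 : σ 1 <;> simp_all

end

end Pool.Agent.K6.H17.RB
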