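import Pool.Agent.K6.H17.RB.Num
import Pool.Agent.K6.H17.RB.Two

/-!
# The leading coefficient of the Jones polynomial
-/

set_option autoImplicit false

namespace Pool.Agent.K6.H17.RB

open Pool.Agent.H835R2.Knot (Piece Word Front Fits run comps Move crossingSet switchAt up dn sw
  Closed IsKnot Step Isotopic IsInvariant DegreeLE circle isotopic_knot)
open Pool.Agent.H838R2.SL
open Pool.Agent.H838R2.Jones
open Pool.Agent.Helper454.Wh (insD delD swpD noD OPiece OWord)
open Pool.Agent.Y466.FT (Same)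
open Pool.Agent.K6.H17.LC (vn vn_inv vn_deg)
open PowerSeries

section
open Pool.Agent.H835R2.Flat Pool.Agent.H835R2.Flat.FP

/-- Invariants of order zero are constant. -/
theorem const0 {A : Type} [AddCommGroup A] {v : Word → A} (hv : IsInvariant v)
    (h : DegreeLE 0 v) {D : Word} (hD : IsKnot D) : v D = v circle := by
  set u : Word → A := fun D => v D - v circle with hu
  have iu : IsInvariant u := fun D E h1 h2 => by
    show v D - _ = v E - _
    rw [hv D E h1 h2]
  have du : DegreeLE 0 u := by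
    intro D hD S hS hc
    have h1 := h D hD S hS hc
    obtain ⟨a, rfl⟩ := Finset.card_eq_one.1 hc
    have e : ({a} : Finset ℕ) = insert a ∅ := rfl
    rw [e, Finset.sum_powerset_insert (Finset.notMem_empty a)] at h1 ⊢
    simp only [Finset.powerset_empty, Finset.sum_singleton] at h1 ⊢
    simp at h1 ⊢
    rw [hu]
    simp only
    rw [← h1]
    abel
  have d0 : Deg 0 u := deg_of_degreeLE du
  obtain ⟨E, h1, h2⟩ := pos_form D [] hD.1
  have hE : Kn E := (isotopic_knot h2).1 hD
  have h4 := cls0 (inv_alt iu d0) (fun b => by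
    show alt [birth 0 b, death 0] u = 0
    rw [alt_of_nd rfl]
    cases b
    · exact (cir iu circle_false).trans (sub_self _)
    · exact sub_self _) hE h1
  rw [alt_of_nd h1] at h4
  exact sub_eq_zero.1 ((iu _ _ hD h2).trans h4)

end

noncomputable section

/-- the state without spins -/
def o0 : ℕ → Bool := fun _ => false

theorem CI_val : CI valD := by
  have key : ∀ (x l r y : Word), Move l r → Fits l (run x Front.empty) →
      valD (x ++ l ++ y) = valD (x ++ r ++ y) := by
    intro x l r y h h2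
    have h3 := move_op hsx h (run x Front.empty) h2
    have e : ∀ w : Word, valD (x ++ w ++ y) = opD sx sx' x Front.empty.dir
        (opD sx sx' w (run x Front.empty).dir (opD sx sx' y (run w (run x Front.empty)).dir 1))
          (fun _ => false) := by
      intro w
      show opD sx sx' (x ++ w ++ y) Front.empty.dir 1 (fun _ => false) = _
      rw [List.append_assoc, opD_append, opD_append]
    rw [e, e, dir_run l, h3 _ |>.2, ← dir_run r, (h3 _).1]
    exact 1
  intro x l r y m fl fr
  rcases m with m | m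
  · exact key x l r y m fl
  · exact (key x r l y m fr).symm

theorem val_app (a w : Word) : valD (a ++ w) =
    opD sx sx' a d0 (opD sx sx' w (dirW (a.map toO) d0) 1) o0 := by
  show opD sx sx' (a ++ w) Front.empty.dir 1 (fun _ => false) = _
  rw [opD_append, dir_run]
  rfl

theorem op_app (a w : Word) {β : Bool} (h : dirW (a.map toO) (d4 β) = d4 β) :
    opD sx sx' (a ++ w) (d4 β) 1 = opD sx sx' a (d4 β) (opD sx sx' w (d4 β) 1) := by
  show opW sx sx' ((a ++ w).map toO) (d4 β) 1 = opW sx sx' (a.map toO) (d4 β)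
    (opW sx sx' (w.map toO) (d4 β) 1)
  rw [List.map_append, opW_append, h]

theorem op_app2 (a w : Word) {β : Bool} (h : dirW (a.map toO) (d4 β) = d2 β) :
    opD sx sx' (a ++ w) (d4 β) 1 = opD sx sx' a (d4 β) (opD sx sx' w (d2 β) 1) := by
  show opW sx sx' ((a ++ w).map toO) (d4 β) 1 = opW sx sx' (a.map toO) (d4 β)
    (opW sx sx' (w.map toO) (d2 β) 1)
  rw [List.map_append, opW_append, h]

/-- a finger -/
def DT (β : Bool) : Module.End ℚ⟦X⟧ (F ℚ⟦X⟧) := df (tT β) (tZ β) (d4 β)

theorem DT_apply (β : Bool) (f : F ℚ⟦X⟧) : DT β f = df (tT β) (tZ β) (d4 β) f := rfl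

theorem dd_val (β : Bool) (n : ℕ) (u : Word) : dd β valD n u =
    df (iT β) (iZ β) d0 ((DT β ^ n) (opD sx sx' u (d4 β) 1)) o0 := by
  induction n generalizing u with
  | zero =>
    show valD (iT β ++ u) - valD (iZ β ++ u) = _
    rw [val_app, val_app, dw_iT, dw_iZ, pow_zero]
    rfl
  | succ n ih =>
    show dd β valD n (tT β ++ u) - dd β valD n (tZ β ++ u) = _
    rw [ih, ih, op_app _ _ (dw_tT β), op_app _ _ (dw_tZ β), pow_succ]
    show _ = df (iT β) (iZ β) d0 ((DT β ^ n) (df (tT β) (tZ β) (d4 β) _)) o0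
    rw [df_apply (tT β), map_sub, map_sub]
    rfl

/-- the difference of the values -/
theorem val_diff (β : Bool) (n : ℕ) (w : Word) : valD (Ln β n ++ w) - valD (start β ++ w) =
    df (iT β) (iZ β) d0 ((DT β ^ n) (df fT fZ (d4 β) (opD sx sx' w (d2 β) 1))) o0 := by
  rw [← dd_fin CI_val β n w]
  show dd β valD n (fT ++ w) - dd β valD n (fZ ++ w) = _
  rw [dd_val, dd_val, op_app2 _ _ (dw_fT β), op_app2 _ _ (dw_fZ β), df_apply fT, map_sub, map_sub]
  rfl

/-! ### the leading term -/

theorem lead0 : Lead 0 1 (Dl sx 0 1) t0 := by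
  intro σ
  rw [Pi.sub_apply, Pi.smul_apply, smul_eq_mul, pow_zero, mul_one, one_mul, Dl_apply, zero_add,
    pow_one]
  cases h0 : σ 0 <;> cases h1 : σ 1 <;> simp [t0, Tr.ev, h0, h1, sx]

/-- the clasp -/
def f0 (β : Bool) : F ℚ⟦X⟧ := df fT fZ (d4 β) (Dl sx 0 1)

theorem lead1 (β : Bool) : Lead 1 1 (f0 β) (g0 β) := lead0.step same_f (d4 β) (c1 β)

theorem lead2 (β : Bool) (n : ℕ) : Lead (n + 1) ((-4) ^ n) ((DT β ^ n) (f0 β)) (g0 β) := by
  induction n with
  | zero =>
    rw [pow_zero, zero_add, pow_zero]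
    exact lead1 β
  | succ n ih =>
    have := (ih.step (same_t β) (d4 β) (c2 β)).scal (-4) (c3 β)
    rw [pow_succ' (DT β)]
    have e : (-4 : ℚ⟦X⟧) ^ (n + 1) = (-4) ^ n * ((-4 : ℤ) : ℚ⟦X⟧) := by
      rw [pow_succ]; push_cast; rfl
    rw [e, Module.End.mul_apply, DT_apply]
    exact this

theorem lead3 (β : Bool) (n : ℕ) :
    Lead (n + 2) (24 * (-4) ^ n) (df (iT β) (iZ β) d0 ((DT β ^ n) (f0 β))) (.leaf 1 0) := by
  have := ((lead2 β n).step (same_i β) d0 (c5 β)).scal 24 (c7 β)
  have e : (24 : ℚ⟦X⟧) * (-4) ^ n = (-4) ^ n * ((24 : ℤ) : ℚ⟦X⟧) := by push_cast; ring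
  rw [e]
  exact this

/-- **The leading coefficient.** -/
theorem coeff_diff (β : Bool) (n : ℕ) {w : Word} (hw : IsKnot (start β ++ w)) :
    coeff (n + 2) (valD (Ln β n ++ w)) - coeff (n + 2) (valD (start β ++ w)) = 24 * (-4) ^ n := by
  -- the function of the lower part
  have hfit : Fits (start β ++ w) Front.empty := hw.1.1
  have hrun : (run (start β ++ w) Front.empty).n = 0 := hw.1.2
  rw [fits_append] at hfit
  rw [Pool.Agent.H835R2.Knot.run_append] at hrun
  have hP := Pr.op (s := sx) (s' := sx') hsx w (run (start β) Front.empty) hfit.2 hrun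
  have hd : (run (start β) Front.empty).dir = d2 β := by
    rw [dir_run]; exact dw_start β
  have hn : (run (start β) Front.empty).n = 2 := rfl
  rw [hd, hn] at hP
  have hg := hP.two
  set c : ℚ⟦X⟧ := opD sx sx' w (d2 β) 1 (insD 0 true (fun _ => false)) with hc
  -- the value of the knot
  have hv : valD (start β ++ w) = c * (-(sx + sx')) := by
    rw [val_app, dw_start, hg]
    show Bl sx' 0 (c • Dl sx 0 1) o0 = _
    rw [map_smul, circ]
    simp
  have h0 : coeff 0 (valD (start β ++ w)) = -2 := by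
    have h1 := const0 (vn_inv 0) (vn_deg 0) hw
    have h2 : vn 0 circle = -2 := by
      show coeff 0 (Bl sx' 0 (Dl sx 0 1) (fun _ => false)) = -2
      rw [circ]
      simp [sx, sx']
      norm_num
    exact h1.trans h2
  have hc0 : constantCoeff c = 1 := by
    rw [hv, coeff_zero_eq_constantCoeff, map_mul, map_neg, map_add, cc_sx, cc_sx'] at h0
    linarith
  -- the difference
  have h1 := lead3 β n o0
  rw [Pi.sub_apply, Pi.smul_apply, smul_eq_mul] at h1
  have h2 : valD (Ln β n ++ w) - valD (start β ++ w) =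
      c * df (iT β) (iZ β) d0 ((DT β ^ n) (f0 β)) o0 := by
    rw [val_diff, hg, map_smul, map_smul, map_smul, Pi.smul_apply, smul_eq_mul, ← f0]
  obtain ⟨r, hr⟩ := h1
  have hev : (Tr.leaf 1 0).ev (X : ℚ⟦X⟧) o0 = 1 := by simp [Tr.ev]
  rw [hev, mul_one] at hr
  rw [← map_sub, h2]
  have h3 : c * df (iT β) (iZ β) d0 ((DT β ^ n) (f0 β)) o0 =
      (c * (24 * (-4) ^ n)) * X ^ (n + 2) + (c * r * X) * X ^ (n + 2) := by
    linear_combination c * hr
  rw [h3, map_add, coeff_mul_X_pow', coeff_mul_X_pow']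
  simp [hc0]
  rw [map_ofNat, map_ofNat]

end

end Pool.Agent.K6.H17.RB
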