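import Pool.Agent.Y466.FT.Fam

/-!
# Isotopies of parts of diagrams, checked by computation
-/

set_option autoImplicit false

namespace Pool.Agent.K6.H17.RB

open Pool.Agent.H835R2 Pool.Agent.H835R2.Knot Pool.Agent.H835R2.Flat Pool.Agent.Y466.FT

/-- The same number of strands, with the same directions. -/
def Eqv (F G : Front) : Prop := F.n = G.n ∧ ∀ p < F.n, F.dir p = G.dir p

instance (F G : Front) : Decidable (Eqv F G) := by unfold Eqv; infer_instance

theorem Eqv.rfl' (F : Front) : Eqv F F := ⟨rfl, fun _ _ => rfl⟩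

theorem Eqv.symm {F G : Front} (h : Eqv F G) : Eqv G F :=
  ⟨h.1.symm, fun p hp => (h.2 p (by rw [h.1]; exact hp)).symm⟩

theorem Eqv.trans {F G H : Front} (h : Eqv F G) (h' : Eqv G H) : Eqv F H :=
  ⟨h.1.trans h'.1, fun p hp => (h.2 p hp).trans (h'.2 p (by rw [← h.1]; exact hp))⟩

theorem Eqv.fits1 {F G : Front} (h : Eqv F G) (p : Piece) (hp : p.Fits F) : p.Fits G := by
  cases p with
  | birth i b =>
    have hp : i ≤ F.n := hp
    show i ≤ G.n
    rw [← h.1]; exact hp
  | death i =>
    have hp : i + 2 ≤ F.n ∧ F.dir (i + 1) = !F.dir i := hp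
    show i + 2 ≤ G.n ∧ G.dir (i + 1) = !G.dir i
    rw [← h.1, ← h.2 (i + 1) (by omega), ← h.2 i (by omega)]; exact hp
  | pos i =>
    have hp : i + 2 ≤ F.n := hp
    show i + 2 ≤ G.n
    rw [← h.1]; exact hp
  | neg i =>
    have hp : i + 2 ≤ F.n := hp
    show i + 2 ≤ G.n
    rw [← h.1]; exact hp

theorem Eqv.act {F G : Front} (h : Eqv F G) (p : Piece) (hp : p.Fits F) :
    Eqv (p.act F) (p.act G) := by
  cases p with
  | birth i b =>
    have hp : i ≤ F.n := hp
    refine ⟨by show F.n + 2 = G.n + 2; rw [h.1], fun q hq => ?_⟩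
    have hq : q < F.n + 2 := hq
    show (if q < i then F.dir q else if q = i then b else if q = i + 1 then !b else F.dir (q - 2)) =
      (if q < i then G.dir q else if q = i then b else if q = i + 1 then !b else G.dir (q - 2))
    split_ifs
    · exact h.2 q (by omega)
    · rfl
    · rfl
    · exact h.2 (q - 2) (by omega)
  | death i =>
    have hp : i + 2 ≤ F.n ∧ F.dir (i + 1) = !F.dir i := hp
    refine ⟨by show F.n - 2 = G.n - 2; rw [h.1], fun q hq => ?_⟩
    have hq : q < F.n - 2 := hq
    show F.dir (up i q) = G.dir (up i q)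
    refine h.2 _ ?_
    unfold up
    split_ifs <;> omega
  | pos i =>
    have hp : i + 2 ≤ F.n := hp
    refine ⟨h.1, fun q hq => ?_⟩
    have hq : q < F.n := hq
    show F.dir (sw i q) = G.dir (sw i q)
    refine h.2 _ ?_
    unfold sw
    split_ifs <;> omega
  | neg i =>
    have hp : i + 2 ≤ F.n := hp
    refine ⟨h.1, fun q hq => ?_⟩
    have hq : q < F.n := hq
    show F.dir (sw i q) = G.dir (sw i q)
    refine h.2 _ ?_
    unfold sw
    split_ifs <;> omega

theorem Eqv.fits {F G : Front} (h : Eqv F G) (w : Word) (hw : Fits w F) : Fits w G := by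
  induction w generalizing F G with
  | nil => trivial
  | cons p w ih => exact ⟨h.fits1 p hw.1, ih (h.act p hw.1) hw.2⟩

theorem Eqv.run {F G : Front} (h : Eqv F G) (w : Word) (hw : Fits w F) :
    Eqv (run w F) (run w G) := by
  induction w generalizing F G with
  | nil => exact h
  | cons p w ih => exact ih (h.act p hw.1) hw.2

/-! ### moves with parameters -/

/-- names of the moves -/
inductive MT : Type
  | ex (p q : Piece)
  | z1 (i : ℕ) (b : Bool)
  | z2 (i : ℕ) (b : Bool)
  | sb1 (i : ℕ) (b : Bool)
  | sb2 (i : ℕ) (b : Bool)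
  | sd1 (i : ℕ)
  | sd2 (i : ℕ)
  | fbp (i : ℕ) (b : Bool)
  | fbn (i : ℕ) (b : Bool)
  | fdp (i : ℕ)
  | fdn (i : ℕ)
  | s1 (i : ℕ)
  | s2 (i : ℕ)
  | th (i : ℕ)

open Piece in
/-- the left-hand side -/
def MT.lhs : MT → Word
  | ex p q => [p, q.moved (q.index + p.outs - p.ins)]
  | z1 i b => [birth i b, death (i + 1)]
  | z2 i b => [birth (i + 1) b, death i]
  | sb1 i b => [birth i b, pos (i + 1)]
  | sb2 i b => [birth i b, neg (i + 1)]
  | sd1 i => [pos (i + 1), death i]
  | sd2 i => [neg (i + 1), death i]
  | fbp i b => [birth i b, pos i]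
  | fbn i b => [birth i b, neg i]
  | fdp i => [pos i, death i]
  | fdn i => [neg i, death i]
  | s1 i => [pos i, neg i]
  | s2 i => [neg i, pos i]
  | th i => [pos i, pos (i + 1), pos i]

open Piece in
/-- the right-hand side -/
def MT.rhs : MT → Word
  | ex p q => [q, p]
  | z1 _ _ => []
  | z2 _ _ => []
  | sb1 i b => [birth (i + 1) b, neg i]
  | sb2 i b => [birth (i + 1) b, pos i]
  | sd1 i => [neg i, death (i + 1)]
  | sd2 i => [pos i, death (i + 1)]
  | fbp i b => [birth i (!b)]
  | fbn i b => [birth i (!b)]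
  | fdp i => [death i]
  | fdn i => [death i]
  | s1 _ => []
  | s2 _ => []
  | th i => [pos (i + 1), pos i, pos (i + 1)]

/-- the condition of an exchange -/
def MT.ok : MT → Bool
  | ex p q => decide (p.index + p.ins ≤ q.index)
  | _ => true

theorem MT.move (t : MT) (h : t.ok = true) : Move t.lhs t.rhs := by
  cases t with
  | ex p q => exact Move.exchange p q (of_decide_eq_true h)
  | z1 i b => exact Move.zigzag₁ i b
  | z2 i b => exact Move.zigzag₂ i b
  | sb1 i b => exact Move.slideBirth₁ i b
  | sb2 i b => exact Move.slideBirth₂ i b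
  | sd1 i => exact Move.slideDeath₁ i
  | sd2 i => exact Move.slideDeath₂ i
  | fbp i b => exact Move.firstBirthPos i b
  | fbn i b => exact Move.firstBirthNeg i b
  | fdp i => exact Move.firstDeathPos i
  | fdn i => exact Move.firstDeathNeg i
  | s1 i => exact Move.second₁ i
  | s2 i => exact Move.second₂ i
  | th i => exact Move.third i

/-- a step: the place, the direction and the move -/
structure Sp : Type where
  k : ℕ
  rv : Bool
  t : MT

/-- the old part -/
def Sp.src (s : Sp) : Word := if s.rv then s.t.rhs else s.t.lhs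
/-- the new part -/
def Sp.dst (s : Sp) : Word := if s.rv then s.t.lhs else s.t.rhs

theorem Sp.move (s : Sp) (h : s.t.ok = true) : Move s.src s.dst ∨ Move s.dst s.src := by
  unfold Sp.src Sp.dst
  cases s.rv
  · exact Or.inl (s.t.move h)
  · exact Or.inr (s.t.move h)

/-- checks and executes a list of steps below the strands `F` -/
def chk (F : Front) : Word → List Sp → Option Word
  | w, [] => some w
  | w, s :: ss =>
    if s.t.ok = true ∧ w = w.take s.k ++ s.src ++ w.drop (s.k + s.src.length) ∧
        Fits (w.take s.k ++ s.src) F ∧ Fits (w.take s.k ++ s.dst) F then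
      chk F (w.take s.k ++ s.dst ++ w.drop (s.k + s.src.length)) ss
    else none

/-- functions of diagrams which do not see the moves -/
def CI {A : Type} (φ : Word → A) : Prop :=
  ∀ x l r y : Word, (Move l r ∨ Move r l) → Fits l (run x Front.empty) →
    Fits r (run x Front.empty) → φ (x ++ l ++ y) = φ (x ++ r ++ y)

theorem CI.chk {A : Type} {φ : Word → A} (h : CI φ) {F : Front} (ss : List Sp) {w w' : Word}
    (hc : chk F w ss = some w') {x : Word} (hx : Eqv F (run x Front.empty)) (y : Word) :
    φ (x ++ w ++ y) = φ (x ++ w' ++ y) := by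
  induction ss generalizing w with
  | nil =>
    have : w = w' := Option.some.inj hc
    rw [this]
  | cons s ss ih =>
    rw [RB.chk] at hc
    split_ifs at hc with h1
    obtain ⟨h2, h3, h4, h5⟩ := h1
    rw [← ih hc]
    set a := w.take s.k
    set b := w.drop (s.k + s.src.length)
    have e1 := (hx.fits _ h4)
    have e2 := (hx.fits _ h5)
    rw [fits_append] at e1 e2
    have e3 := h (x ++ a) s.src s.dst (b ++ y) (s.move h2)
      (by rw [run_append]; exact e1.2) (by rw [run_append]; exact e2.2)
    rw [h3]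
    simp only [List.append_assoc] at e3 ⊢
    exact e3

/-- the version for invariants of knots -/
theorem CI_ext {A : Type} [AddCommGroup A] {v : Word → A} (hv : IsInvariant v) : CI (ext v) :=
  fun _ _ _ _ m fl fr => ext_move hv m fl fr

end Pool.Agent.K6.H17.RB
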