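import Pool.Agent.K6.H17.RB.Base

/-!
# The parts of the knots, and isotopies between them (checked by computation)

Strands at a place of type `s4 β`, from left to right: the closing strand, the two strands `u`, `l` of
a finger, with the base strand `b` between them: `c u b l`.  `β` is the direction of the closing
strand.
-/

set_option autoImplicit false
set_option maxRecDepth 100000

namespace Pool.Agent.K6.H17.RB

open Pool.Agent.H835R2 Pool.Agent.H835R2.Knot Pool.Agent.Y466.FT

/-- strands with given directions -/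
def fr (l : List Bool) : Front := ⟨l.length, fun p => l.getD p true, fun p => p⟩

/-- two strands: the closing strand and the base strand -/
def s2 (β : Bool) : Front := fr [β, !β]
/-- four strands: the closing strand, `u`, the base strand, `l` -/
def s4 (β : Bool) : Front := fr [β, β, !β, !β]

/-- the top -/
def start (β : Bool) : Word := [.birth 0 β]
/-- a free finger, over the base strand -/
def eE (β : Bool) : Word := [.birth 1 β, .neg 2]
/-- releasing the finger -/
def cC : Word := [.death 1]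
/-- **The next finger**, hooked to the old one. -/
def tT (β : Bool) : Word := [.birth 1 β, .pos 2, .neg 3, .pos 4, .pos 3, .neg 2, .death 3]
/-- the next finger passes over everything -/
def tZ (β : Bool) : Word := [.birth 1 β, .neg 2, .neg 3, .neg 4, .neg 3, .neg 2, .death 3]
/-- **The first finger**, hooked to the closing strand. -/
def iT (β : Bool) : Word := [.birth 0 β, .birth 0 β, .neg 1]
/-- the first finger is free -/
def iZ (β : Bool) : Word := [.birth 0 β, .birth 0 β, .pos 1]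
/-- **The end**: the last finger is hooked to the base strand. -/
def fT : Word := [.pos 2, .pos 2, .death 1]
/-- the last finger is free -/
def fZ : Word := [.neg 2, .pos 2, .death 1]

/-- `tZ` releases the old finger and creates a free one -/
def q1 (β : Bool) : List Sp :=
  [⟨5, true, .sd1 2⟩, ⟨4, false, .s2 3⟩, ⟨3, true, .ex (.death 2) (.neg 4)⟩, ⟨2, false, .sd2 2⟩,
   ⟨1, false, .s2 2⟩, ⟨0, false, .ex (.birth 1 β) (.death 1)⟩]

theorem h_q1 (β : Bool) : chk (s4 β) (tZ β) (q1 β) = some (cC ++ eE β) := by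
  cases β <;> decide +kernel

/-- releasing the new finger -/
def q2 (β : Bool) : List Sp :=
  [⟨6, true, .ex (.death 1) (.death 3)⟩, ⟨5, false, .sd2 1⟩, ⟨4, true, .ex (.pos 1) (.pos 3)⟩,
   ⟨3, true, .ex (.pos 1) (.pos 4)⟩, ⟨2, true, .ex (.pos 1) (.neg 3)⟩, ⟨0, false, .sb1 1 β⟩,
   ⟨1, false, .s2 1⟩, ⟨3, false, .sd1 2⟩, ⟨2, true, .ex (.neg 2) (.pos 4)⟩, ⟨0, false, .sb2 2 β⟩,
   ⟨1, false, .s1 2⟩, ⟨0, false, .sb1 3 β⟩, ⟨1, false, .fdn 3⟩, ⟨0, false, .z2 3 β⟩]

theorem h_q2 (β : Bool) : chk (s4 β) (tT β ++ cC) (q2 β) = some (cC) := by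
  cases β <;> decide +kernel

/-- releasing a free finger -/
def q3 (β : Bool) : List Sp :=
  [⟨1, false, .sd2 1⟩, ⟨0, false, .fbp 1 β⟩, ⟨0, false, .z1 1 (!β)⟩]

theorem h_q3 (β : Bool) : chk (s2 β) (eE β ++ cC) (q3 β) = some ([]) := by
  cases β <;> decide +kernel

/-- releasing the first finger -/
def q4 (β : Bool) : List Sp :=
  [⟨2, false, .fdn 1⟩, ⟨1, false, .z1 0 β⟩]

theorem h_q4 (β : Bool) : chk (Front.empty) (iT β ++ cC) (q4 β) = some (start β) := by
  cases β <;> decide +kernel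

/-- the first finger, if it is free -/
def q5 (β : Bool) : List Sp :=
  [⟨0, true, .ex (.birth 0 β) (.birth 0 β)⟩, ⟨1, true, .sb2 1 β⟩]

theorem h_q5 (β : Bool) : chk (Front.empty) (iZ β) (q5 β) = some (start β ++ eE β) := by
  cases β <;> decide +kernel

/-- a free finger can be pulled out -/
def q6 (β : Bool) : List Sp :=
  [⟨1, true, .ex (.birth 1 β) (.neg 2)⟩, ⟨0, true, .ex (.birth 1 β) (.birth 1 β)⟩,
   ⟨2, true, .ex (.pos 2) (.neg 4)⟩, ⟨6, true, .s1 3⟩, ⟨7, true, .s1 4⟩, ⟨5, true, .th 3⟩,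
   ⟨4, false, .s2 3⟩, ⟨3, false, .s2 4⟩, ⟨5, false, .s2 3⟩, ⟨1, true, .sb2 2 β⟩,
   ⟨2, false, .s2 3⟩, ⟨2, true, .ex (.neg 2) (.neg 4)⟩, ⟨1, false, .fbn 2 β⟩,
   ⟨1, false, .ex (.birth 2 (!β)) (.neg 2)⟩, ⟨2, false, .z1 2 (!β)⟩]

theorem h_q6 (β : Bool) : chk (s2 β) (eE β ++ tT β) (q6 β) = some (eE β) := by
  cases β <;> decide +kernel

/-- the end, if the last finger is free -/
def q7 (β : Bool) : List Sp :=
  [⟨1, false, .s2 2⟩, ⟨1, false, .sd1 1⟩, ⟨0, false, .fbn 1 β⟩, ⟨0, false, .z1 1 (!β)⟩]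

theorem h_q7 (β : Bool) : chk (s2 β) (eE β ++ fT) (q7 β) = some ([]) := by
  cases β <;> decide +kernel

/-- the end without hook -/
def q8 : List Sp :=
  [⟨0, false, .s2 2⟩]

theorem h_q8 (β : Bool) : chk (s4 β) (fZ) (q8) = some (cC) := by
  cases β <;> decide +kernel

end Pool.Agent.K6.H17.RB
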