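import Pool.Agent.K6.H17.RB.Data

/-!
# Invariants of order at most `n + 1` do not see `n + 1` fingers
-/

set_option autoImplicit false

namespace Pool.Agent.K6.H17.RB

open Pool.Agent.H835R2 Pool.Agent.H835R2.Knot Pool.Agent.H835R2.Flat Pool.Agent.Y466.FT

/-- `n` fingers -/
def tn (β : Bool) : ℕ → Word
  | 0 => []
  | n + 1 => tn β n ++ tT β

/-- **The first maximum with `n + 1` fingers.** -/
def Ln (β : Bool) (n : ℕ) : Word := iT β ++ tn β n ++ fT

/-! ### the strands -/

theorem fr_iT (β : Bool) : Eqv (s4 β) (run (iT β) Front.empty) := by cases β <;> decide +kernel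
theorem fr_tT (β : Bool) : Eqv (s4 β) (run (tT β) (s4 β)) := by cases β <;> decide +kernel
theorem fr_start (β : Bool) : Eqv (s2 β) (run (start β) Front.empty) := by
  cases β <;> decide +kernel
theorem fr_E (β : Bool) : Eqv (s4 β) (run (start β ++ eE β) Front.empty) := by
  cases β <;> decide +kernel
theorem fits_tT (β : Bool) : Fits (tT β) (s4 β) := by cases β <;> decide +kernel

theorem fr_tn (β : Bool) (n : ℕ) : Eqv (s4 β) (run (iT β ++ tn β n) Front.empty) := by
  induction n with
  | zero => exact fr_iT β
  | succ n ih =>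
    rw [tn, ← List.append_assoc, run_append]
    exact (fr_tT β).trans (ih.run (tT β) (fits_tT β))

/-! ### the isotopies -/

section
variable {A : Type} {φ : Word → A} (h : CI φ) (β : Bool)
include h

theorem r5 (w : Word) : φ (iZ β ++ w) = φ (start β ++ eE β ++ w) := by
  have := h.chk (q5 β) (h_q5 β) (x := []) (Eqv.rfl' _) w
  simpa using this

theorem r6 (w : Word) : φ (start β ++ eE β ++ (tT β ++ w)) = φ (start β ++ eE β ++ w) := by
  have := h.chk (q6 β) (h_q6 β) (x := start β) (fr_start β) w
  simpa using this

theorem r3 (w : Word) : φ (start β ++ eE β ++ cC ++ w) = φ (start β ++ w) := by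
  have := h.chk (q3 β) (h_q3 β) (x := start β) (fr_start β) w
  simpa using this

theorem r1 {x : Word} (hx : Eqv (s4 β) (run x Front.empty)) (w : Word) :
    φ (x ++ (tZ β ++ w)) = φ (x ++ cC ++ (eE β ++ w)) := by
  have := h.chk (q1 β) (h_q1 β) hx w
  simpa using this

theorem r8 {x : Word} (hx : Eqv (s4 β) (run x Front.empty)) (w : Word) :
    φ (x ++ (fZ ++ w)) = φ (x ++ cC ++ w) := by
  have := h.chk q8 (h_q8 β) hx w
  simpa using this

theorem r7 (w : Word) : φ (start β ++ eE β ++ (fT ++ w)) = φ (start β ++ w) := by
  have := h.chk (q7 β) (h_q7 β) (x := start β) (fr_start β) w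
  simpa using this

theorem r24 (n : ℕ) (w : Word) : φ (iT β ++ tn β n ++ cC ++ w) = φ (start β ++ w) := by
  induction n with
  | zero =>
    have := h.chk (q4 β) (h_q4 β) (x := []) (Eqv.rfl' _) w
    simpa [tn] using this
  | succ n ih =>
    have := h.chk (q2 β) (h_q2 β) (fr_tn β n) w
    rw [← ih, ← this, tn]
    simp only [List.append_assoc]

/-- everything is released -/
theorem rZ (n : ℕ) (w : Word) :
    φ (iT β ++ tn β n ++ (tZ β ++ w)) = φ (start β ++ eE β ++ w) := by
  rw [r1 h β (fr_tn β n), r24 h, List.append_assoc]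

theorem rE (w : Word) : φ (start β ++ eE β ++ (tZ β ++ w)) = φ (start β ++ eE β ++ w) := by
  rw [r1 h β (fr_E β), r3 h, List.append_assoc]

theorem rF (n : ℕ) (w : Word) : φ (iT β ++ tn β n ++ (fZ ++ w)) = φ (start β ++ w) := by
  rw [r8 h β (fr_tn β n), r24 h]

theorem rEF (w : Word) : φ (start β ++ eE β ++ (fZ ++ w)) = φ (start β ++ w) := by
  rw [r8 h β (fr_E β), r3 h]

end

/-! ### the alternating sum -/

section
variable {A : Type} [AddCommGroup A]

/-- the difference of two beginnings -/
def del (a b : Word) (φ : Word → A) : Word → A := fun w => φ (a ++ w) - φ (b ++ w)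

/-- the iterated difference -/
def dd (β : Bool) (φ : Word → A) : ℕ → Word → A
  | 0 => del (iT β) (iZ β) φ
  | n + 1 => del (tT β) (tZ β) (dd β φ n)

theorem dd_eq {φ : Word → A} (h : CI φ) (β : Bool) (n : ℕ) (w : Word) :
    dd β φ n w = φ (iT β ++ tn β n ++ w) - φ (start β ++ eE β ++ w) := by
  induction n generalizing w with
  | zero =>
    show φ (iT β ++ w) - φ (iZ β ++ w) = _
    rw [r5 h]
    simp [tn]
  | succ n ih =>
    show dd β φ n (tT β ++ w) - dd β φ n (tZ β ++ w) = _
    rw [ih, ih, r6 h, rZ h, rE h, tn]
    simp only [List.append_assoc]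
    abel

theorem dd_fin {φ : Word → A} (h : CI φ) (β : Bool) (n : ℕ) (w : Word) :
    del fT fZ (dd β φ n) w = φ (Ln β n ++ w) - φ (start β ++ w) := by
  show dd β φ n (fT ++ w) - dd β φ n (fZ ++ w) = _
  rw [dd_eq h, dd_eq h, rF h, rEF h, r7 h]
  unfold Ln
  simp only [List.append_assoc]
  abel

/-! ### the degree -/

theorem malt_zero (D : MWord) : malt D (fun _ => (0 : A)) = 0 := by
  induction D with
  | nil => rfl
  | cons p D ih =>
    obtain ⟨p, b⟩ := p
    cases b with
    | true =>
      show malt D _ - malt D _ = 0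
      rw [ih, sub_zero]
    | false => exact ih

theorem malt_add (x : MWord) (g h : Word → A) :
    malt x (fun u => g u + h u) = malt x g + malt x h := by
  induction x generalizing g h with
  | nil => rfl
  | cons p x ih =>
    obtain ⟨p, b⟩ := p
    cases b with
    | true =>
      show malt x _ - malt x _ = (malt x _ - malt x _) + (malt x _ - malt x _)
      rw [ih, ih]
      abel
    | false =>
      show malt x _ = malt x _ + malt x _
      rw [ih]

/-- all alternating sums over `r` crossings vanish -/
def Vd (r : ℕ) (φ : Word → A) : Prop :=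
  ∀ D : MWord, (∀ x ∈ D, x.2 = true → x.1.isCrossing = true) → nm D = r → malt D φ = 0

theorem Vd.add {r : ℕ} {φ ψ : Word → A} (h : Vd r φ) (h' : Vd r ψ) : Vd r (fun w => φ w + ψ w) :=
  fun D h1 h2 => by rw [malt_add, h D h1 h2, h' D h1 h2, add_zero]

theorem Vd.zero (r : ℕ) : Vd r (fun _ => (0 : A)) := fun D _ _ => malt_zero D

theorem nm_cons_false (p : Piece) (D : MWord) : nm ((p, false) :: D) = nm D := by
  unfold nm; simp

theorem nm_cons_true (p : Piece) (D : MWord) : nm ((p, true) :: D) = nm D + 1 := by
  unfold nm; simp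

theorem Vd.cons {r : ℕ} {φ : Word → A} (h : Vd r φ) (p : Piece) : Vd r (fun w => φ (p :: w)) := by
  intro D h1 h2
  refine h ((p, false) :: D) ?_ (by rw [nm_cons_false, h2])
  intro x hx hx'
  rcases List.mem_cons.1 hx with rfl | hx
  · simp at hx'
  · exact h1 x hx hx'

theorem Vd.app {r : ℕ} {φ : Word → A} (h : Vd r φ) (a : Word) : Vd r (fun w => φ (a ++ w)) := by
  induction a generalizing φ with
  | nil => exact h
  | cons p a ih => exact ih (h.cons p)

theorem Vd.mark {r : ℕ} {φ : Word → A} (h : Vd (r + 1) φ) (p : Piece) (hp : p.isCrossing = true) :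
    Vd r (fun w => φ (p :: w) - φ (p.switch :: w)) := by
  intro D h1 h2
  rw [malt_sub]
  refine h ((p, true) :: D) ?_ (by rw [nm_cons_true, h2])
  intro x hx hx'
  rcases List.mem_cons.1 hx with rfl | hx
  · exact hp
  · exact h1 x hx hx'

theorem Vd.del {r : ℕ} {a b : Word} (hs : Same a b) {φ : Word → A} (h : Vd (r + 1) φ) :
    Vd r (del a b φ) := by
  induction hs generalizing φ with
  | nil =>
    have : RB.del [] [] φ = fun _ => (0 : A) := by
      funext w
      exact sub_self _
    rw [this]
    exact Vd.zero r
  | @cons p q a b h1 h2 ih =>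
    have i1 := ih (h.cons p)
    have i2 : Vd r (fun w => φ (p :: (b ++ w)) - φ (q :: (b ++ w))) := by
      by_cases hc : p.isCrossing = true
      · rcases h1 with rfl | rfl
        · simp only [sub_self]
          exact Vd.zero r
        · exact (h.mark p hc).app b
      · have : q = p := by
          rcases h1 with rfl | rfl
          · rfl
          · cases p with
            | birth i b => rfl
            | death i => rfl
            | pos i => exact absurd rfl hc
            | neg i => exact absurd rfl hc
        subst this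
        simp only [sub_self]
        exact Vd.zero r
    have e : RB.del (p :: a) (q :: b) φ = fun w => RB.del a b (fun w => φ (p :: w)) w +
        (φ (p :: (b ++ w)) - φ (q :: (b ++ w))) := by
      funext w
      show φ (p :: (a ++ w)) - φ (q :: (b ++ w)) = (φ (p :: (a ++ w)) - φ (p :: (b ++ w))) + _
      abel
    rw [e]
    exact i1.add i2

theorem same_of {a b : Word} (h : (a.length = b.length ∧
    ∀ i < a.length, b.getD i (.death 0) = a.getD i (.death 0) ∨
      b.getD i (.death 0) = (a.getD i (.death 0)).switch)) : Same a b := by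
  induction a generalizing b with
  | nil =>
    obtain ⟨h1, -⟩ := h
    have : b = [] := List.length_eq_zero_iff.1 h1.symm
    subst this
    exact List.Forall₂.nil
  | cons p a ih =>
    obtain ⟨h1, h2⟩ := h
    cases b with
    | nil => simp at h1
    | cons q b =>
      refine List.Forall₂.cons ?_ (ih ⟨by simpa using h1, fun i hi => ?_⟩)
      · simpa using h2 0 (by simp)
      · simpa using h2 (i + 1) (by simpa using hi)

theorem same_i (β : Bool) : Same (iT β) (iZ β) := same_of (by cases β <;> decide +kernel)
theorem same_t (β : Bool) : Same (tT β) (tZ β) := same_of (by cases β <;> decide +kernel)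
theorem same_f : Same fT fZ := same_of (by decide +kernel)

theorem Vd.dd (β : Bool) {φ : Word → A} (n r : ℕ) (h : Vd (n + r + 1) φ) : Vd r (dd β φ n) := by
  induction n generalizing r with
  | zero => exact Vd.del (same_i β) (by simpa using h)
  | succ n ih =>
    exact Vd.del (same_t β) (ih (r + 1) (by rwa [show n + (r + 1) + 1 = n + 1 + r + 1 by ring]))

/-- **Invariants of order at most `n + 1`** do not see the fingers. -/
theorem ext_Ln (β : Bool) {v : Word → A} (hv : IsInvariant v) {n : ℕ} (hn : DegreeLE (n + 1) v)
    (w : Word) : ext v (Ln β n ++ w) = ext v (start β ++ w) := by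
  have h1 : Vd (n + 1 + 1) (ext v) := fun D hD hD' => malt_ext hn D hD hD'
  have h2 : Vd 0 (RB.del fT fZ (RB.dd β (ext v) n)) := Vd.del same_f (Vd.dd β n 1 h1)
  have h3 := h2 (w.map fun p => (p, false)) (by simp) (by unfold nm; simp)
  rw [malt_plain _ (by unfold nm; simp)] at h3
  have e : pl (w.map fun p => (p, false)) = w := by
    unfold pl
    rw [List.map_map]
    exact List.map_id _
  rw [e, dd_fin (CI_ext hv)] at h3
  exact sub_eq_zero.1 h3

end

/-! ### knots -/

theorem CI_knot : CI (fun w => IsKnot w) := by
  intro x l r y m fl fr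
  exact propext ⟨fun h => (isKnot_move m fr h).1, fun h => (isKnot_move m.symm fl h).1⟩

theorem isKnot_Ln (β : Bool) (n : ℕ) {w : Word} (hw : IsKnot (start β ++ w)) :
    IsKnot (Ln β n ++ w) := by
  have h1 : IsKnot (iT β ++ tn β n ++ (fZ ++ w)) := by
    have := rF CI_knot β n w
    exact this.symm ▸ hw
  have h2 : Same (iT β ++ tn β n ++ (fT ++ w)) (iT β ++ tn β n ++ (fZ ++ w)) :=
    List.rel_append (Same.refl (iT β ++ tn β n)) (List.rel_append same_f (Same.refl w))
  have h3 := (Same.knot h2).1 h1
  unfold Ln
  simpa using h3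

theorem Ln_triv {A : Type} [AddCommGroup A] {v : Word → A} (hv : IsInvariant v) {n : ℕ}
    (hn : DegreeLE (n + 1) v) (β : Bool) {w : Word} (hw : IsKnot (start β ++ w)) :
    v (Ln β n ++ w) = v (start β ++ w) := by
  have := ext_Ln β hv hn w
  unfold ext at this
  rwa [if_pos (isKnot_Ln β n hw), if_pos hw] at this

theorem crossings_Ln (β : Bool) (n : ℕ) (w : Word) :
    crossings (Ln β n ++ w) = crossings (start β ++ w) + (5 * n + 3) := by
  unfold Ln crossings
  rw [List.countP_append, List.countP_append, List.countP_append, List.countP_append]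
  have h0 : (start β).countP Piece.isCrossing = 0 := by cases β <;> decide
  have h1 : (iT β).countP Piece.isCrossing = 1 := by cases β <;> decide
  have h2 : fT.countP Piece.isCrossing = 2 := by decide
  have h3 : (tn β n).countP Piece.isCrossing = 5 * n := by
    induction n with
    | zero => rfl
    | succ n ih =>
      rw [tn, List.countP_append, ih]
      have : (tT β).countP Piece.isCrossing = 5 := by cases β <;> decide
      rw [this]; ring
  rw [h0, h1, h2, h3]
  ring

end Pool.Agent.K6.H17.RB
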