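import Pool.Agent.K6.H17.RB.Tree
import Pool.Agent.K6.H17.RB.Triv

/-!
# Leading coefficients
-/

set_option autoImplicit false

namespace Pool.Agent.K6.H17.RB

open Pool.Agent.H835R2.Knot (Piece Word Front Fits run comps Move crossingSet switchAt up dn sw
  Closed IsKnot Step Isotopic IsInvariant DegreeLE)
open Pool.Agent.H838R2.SL
open Pool.Agent.H838R2.Jones
open Pool.Agent.Helper454.Wh (insD delD swpD noD OPiece OWord)
open Pool.Agent.Y466.FT (Same)
open PowerSeries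

noncomputable section

/-! ### divisibility -/

theorem Dv_zero (n : ℕ) : Dv n (0 : F ℚ⟦X⟧) := fun _ => dvd_zero _

theorem Dv.add {n : ℕ} {f g : F ℚ⟦X⟧} (h : Dv n f) (h' : Dv n g) : Dv n (f + g) :=
  fun σ => dvd_add (h σ) (h' σ)

theorem Dv.smul {n : ℕ} {f : F ℚ⟦X⟧} (h : Dv n f) (c : ℚ⟦X⟧) : Dv n (c • f) :=
  fun σ => Dvd.dvd.mul_left (h σ) c

theorem Dv.mulX {n : ℕ} {f : F ℚ⟦X⟧} (h : Dv n f) (k : ℕ) (c : ℚ⟦X⟧) :
    Dv (k + n) ((c * X ^ k) • f) := by
  intro σ
  rw [Pi.smul_apply, smul_eq_mul, mul_assoc, pow_add]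
  exact Dvd.dvd.mul_left (mul_dvd_mul_left _ (h σ)) c

theorem Dv.op {n : ℕ} (w : Word) (d : ℕ → Bool) {f : F ℚ⟦X⟧} (h : Dv n f) :
    Dv n (opD sx sx' w d f) := by
  induction w generalizing d with
  | nil => exact h
  | cons p w ih => exact Dv_P n _ _ (ih _)

/-- the difference of two beginnings -/
def df (a b : Word) (d : ℕ → Bool) : F ℚ⟦X⟧ →ₗ[ℚ⟦X⟧] F ℚ⟦X⟧ := opD sx sx' a d - opD sx sx' b d

theorem df_apply (a b : Word) (d : ℕ → Bool) (f : F ℚ⟦X⟧) :
    df a b d f = opD sx sx' a d f - opD sx sx' b d f := rfl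

theorem Dv.df {n : ℕ} {a b : Word} (hs : Same a b) (d : ℕ → Bool) {f : F ℚ⟦X⟧} (h : Dv n f) :
    Dv (n + 1) (df a b d f) := by
  induction hs generalizing d with
  | nil =>
    rw [df_apply, sub_self]
    exact Dv_zero _
  | @cons p q a b h1 h2 ih =>
    have hd : nxt (toO q) d = nxt (toO p) d := by
      rcases h1 with rfl | rfl
      · rfl
      · exact nxt_switch p d
    have e : RB.df (p :: a) (q :: b) d f = opP sx sx' (toO p) d (RB.df a b (nxt (toO p) d) f) +
        (opP sx sx' (toO p) d (opD sx sx' b (nxt (toO p) d) f) -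
          opP sx sx' (toO q) d (opD sx sx' b (nxt (toO p) d) f)) := by
      rw [df_apply, df_apply, map_sub]
      show opP sx sx' (toO p) d (opD sx sx' a (nxt (toO p) d) f) -
        opP sx sx' (toO q) d (opD sx sx' b (nxt (toO q) d) f) = _
      rw [hd]
      abel
    rw [e]
    refine Dv.add (Dv_P _ _ _ (ih _)) ?_
    rcases h1 with rfl | rfl
    · rw [sub_self]
      exact Dv_zero _
    · exact Dv_diff n p d (Dv.op _ _ h)

/-! ### evaluation modulo `X ^ 2` -/

/-- the power series modulo `X ^ 2` -/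
abbrev Q2 : Type := ℚ⟦X⟧ ⧸ (Ideal.span {(X : ℚ⟦X⟧) ^ 2})

/-- the projection -/
abbrev pr : ℚ⟦X⟧ →+* Q2 := Ideal.Quotient.mk _

theorem prX : pr X * pr X = 0 := by
  rw [← map_mul, ← sq]
  exact Ideal.Quotient.eq_zero_iff_mem.2 (Ideal.mem_span_singleton_self _)

theorem pr_sx : pr sx = 1 + pr X := by
  unfold sx
  rw [map_add, map_one]

theorem pr_sx' : pr sx' = 1 - pr X := by
  have h : pr sx * pr sx' = 1 := by rw [← map_mul, hsx, map_one]
  have h2 : (1 - pr X) * pr sx = 1 := by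
    rw [pr_sx]
    linear_combination -prX
  calc pr sx' = (1 - pr X) * pr sx * pr sx' := by rw [h2, one_mul]
    _ = 1 - pr X := by rw [mul_assoc, h, mul_one]

theorem pr_eq {a b : ℚ⟦X⟧} (h : pr a = pr b) : (X : ℚ⟦X⟧) ^ 2 ∣ a - b :=
  Ideal.mem_span_singleton.1 (Ideal.Quotient.eq.1 h)

theorem pr_ev (t : Tr) (σ : ℕ → Bool) : pr (t.ev (X : ℚ⟦X⟧) σ) = t.ev (pr X) σ := by
  induction t generalizing σ with
  | z => exact map_zero _
  | leaf a b =>
    show pr ((a : ℚ⟦X⟧) + (b : ℚ⟦X⟧) * X) = _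
    rw [map_add, map_mul, map_intCast, map_intCast]
    rfl
  | node l r ihl ihr =>
    show pr (if σ 0 then _ else _) = (if σ 0 then _ else _)
    rw [apply_ite pr, ihl, ihr]

theorem op_ev (w : Word) (d : ℕ → Bool) (t : Tr) :
    Dv 2 (opD sx sx' w d (t.ev X) - (Tr.opT w d t).ev X) := by
  intro σ
  refine pr_eq ?_
  have h := congrFun (LC.opD_map (s := sx) (s' := sx') pr w d (t.ev X)) σ
  have e : (fun σ : ℕ → Bool => pr (t.ev (X : ℚ⟦X⟧) σ)) = t.ev (pr X) := funext (pr_ev t)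
  rw [e, pr_sx, pr_sx', ← Tr.ev_opT prX] at h
  rw [pr_ev, h]

/-- the difference of two beginnings, for trees -/
def dif (a b : Word) (d : ℕ → Bool) (t : Tr) : Tr :=
  Tr.add (Tr.opT a d t) (Tr.smul (-1) 0 (Tr.opT b d t))

/-- the constant coefficients vanish -/
def noC : Tr → Bool
  | .z => true
  | .leaf a _ => decide (a = 0)
  | .node l r => noC l && noC r

theorem ev_sh {t : Tr} (h : noC t = true) (σ : ℕ → Bool) :
    t.ev (X : ℚ⟦X⟧) σ = X * (t.sh).ev X σ := by
  induction t generalizing σ with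
  | z => simp [Tr.sh, Tr.ev]
  | leaf a b =>
    simp only [noC, decide_eq_true_eq] at h
    subst h
    simp only [Tr.sh, Tr.ev]
    push_cast
    ring
  | node l r ihl ihr =>
    simp only [noC, Bool.and_eq_true] at h
    show (if σ 0 then r.ev X _ else l.ev X _) = _
    rw [Tr.sh, Tr.ev_mk, ihl h.1, ihr h.2]
    split_ifs <;> rfl

theorem ev_dif (a b : Word) (d : ℕ → Bool) (t : Tr) (σ : ℕ → Bool) :
    (dif a b d t).ev (X : ℚ⟦X⟧) σ =
      (Tr.opT a d t).ev X σ - (Tr.opT b d t).ev X σ := by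
  have h : ∀ (t : Tr) (σ : ℕ → Bool), (Tr.smul (-1) 0 t).ev (X : ℚ⟦X⟧) σ = - t.ev X σ := by
    intro t
    induction t with
    | z => intro σ; simp [Tr.smul, Tr.ev]
    | leaf a b => intro σ; simp only [Tr.smul, Tr.ev]; push_cast; ring
    | node l r ihl ihr =>
      intro σ
      show (if σ 0 then (Tr.smul (-1) 0 r).ev X _ else (Tr.smul (-1) 0 l).ev X _) =
        -(if σ 0 then _ else _)
      rw [ihl, ihr]
      split_ifs <;> rfl
  rw [dif, Tr.ev_add, h, sub_eq_add_neg]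

/-- `f` begins with `c X ^ k t` -/
def Lead (k : ℕ) (c : ℚ⟦X⟧) (f : F ℚ⟦X⟧) (t : Tr) : Prop :=
  Dv (k + 1) (f - (c * X ^ k) • t.ev X)

theorem Lead.step {k : ℕ} {c : ℚ⟦X⟧} {f : F ℚ⟦X⟧} {t : Tr} (h : Lead k c f t) {a b : Word}
    (hs : Same a b) (d : ℕ → Bool) (hc : noC (dif a b d t) = true) :
    Lead (k + 1) c (df a b d f) (dif a b d t).sh := by
  have h1 := Dv.df hs d h
  have h2 : Dv 2 (df a b d (t.ev X) - (dif a b d t).ev X) := by
    have e : df a b d (t.ev X) - (dif a b d t).ev X =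
        (opD sx sx' a d (t.ev X) - (Tr.opT a d t).ev X) +
          (-1 : ℚ⟦X⟧) • (opD sx sx' b d (t.ev X) - (Tr.opT b d t).ev X) := by
      funext σ
      simp only [df_apply, Pi.sub_apply, Pi.add_apply, Pi.smul_apply, smul_eq_mul, ev_dif]
      ring
    rw [e]
    exact Dv.add (op_ev a d t) (Dv.smul (op_ev b d t) _)
  have h3 := Dv.mulX h2 k c
  have e : df a b d f - (c * X ^ (k + 1)) • (dif a b d t).sh.ev X =
      df a b d (f - (c * X ^ k) • t.ev X) +
        (c * X ^ k) • (df a b d (t.ev X) - (dif a b d t).ev X) := by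
    funext σ
    rw [map_sub, map_smul]
    simp only [Pi.sub_apply, Pi.add_apply, Pi.smul_apply, smul_eq_mul, ev_sh hc]
    ring
  unfold Lead
  rw [e]
  exact Dv.add h1 h3

theorem Lead.scal {k : ℕ} {c : ℚ⟦X⟧} {f : F ℚ⟦X⟧} {t u : Tr} (h : Lead k c f t) (p : ℤ)
    (he : (Tr.add t (Tr.smul (-p) 0 u)).isZ = true) : Lead k (c * (p : ℚ⟦X⟧)) f u := by
  have e : t.ev (X : ℚ⟦X⟧) = (p : ℚ⟦X⟧) • u.ev X := by
    have hz : ∀ (t : Tr), t.isZ = true → ∀ σ : ℕ → Bool, t.ev (X : ℚ⟦X⟧) σ = 0 := by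
      intro t
      induction t with
      | z => intro _ σ; rfl
      | leaf a b =>
        intro h σ
        simp only [Tr.isZ, Bool.and_eq_true, decide_eq_true_eq] at h
        simp [Tr.ev, h.1, h.2]
      | node l r ihl ihr =>
        intro h σ
        simp only [Tr.isZ, Bool.and_eq_true] at h
        show (if σ 0 then _ else _) = _
        rw [ihl h.1, ihr h.2]
        simp
    have h2 : ∀ (t : Tr) (σ : ℕ → Bool),
        (Tr.smul (-p) 0 t).ev (X : ℚ⟦X⟧) σ = -(p : ℚ⟦X⟧) * t.ev X σ := by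
      intro t
      induction t with
      | z => intro σ; simp [Tr.smul, Tr.ev]
      | leaf a b => intro σ; simp only [Tr.smul, Tr.ev]; push_cast; ring
      | node l r ihl ihr =>
        intro σ
        show (if σ 0 then (Tr.smul (-p) 0 r).ev X _ else (Tr.smul (-p) 0 l).ev X _) =
          _ * (if σ 0 then _ else _)
        rw [ihl, ihr]
        split_ifs <;> rfl
    funext σ
    have h3 := hz _ he σ
    rw [Tr.ev_add, h2] at h3
    rw [Pi.smul_apply, smul_eq_mul]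
    linear_combination h3
  unfold Lead at h ⊢
  rw [e, smul_smul] at h
  rwa [show c * (p : ℚ⟦X⟧) * X ^ k = c * X ^ k * (p : ℚ⟦X⟧) by ring]

end

end Pool.Agent.K6.H17.RB
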