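import Pool.Agent.K6.H17.RB.Lead

/-!
# The numbers
-/

set_option autoImplicit false
set_option maxRecDepth 100000

namespace Pool.Agent.K6.H17.RB

open Pool.Agent.H835R2.Knot (Piece Word Front Fits run comps Move crossingSet switchAt up dn sw
  Closed IsKnot Step Isotopic IsInvariant DegreeLE)
open Pool.Agent.H838R2.SL
open Pool.Agent.H838R2.Jones
open Pool.Agent.Helper454.Wh (insD delD swpD noD OPiece OWord)
open Pool.Agent.Y466.FT (Same)

/-- the directions -/
def d4 (β : Bool) : ℕ → Bool := fun p => [β, β, !β, !β].getD p true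
/-- the directions -/
def d2 (β : Bool) : ℕ → Bool := fun p => [β, !β].getD p true
/-- the directions -/
def d0 : ℕ → Bool := fun _ => true

theorem dw_iT (β : Bool) : dirW ((iT β).map toO) d0 = d4 β := by
  funext p
  rcases p with _ | _ | _ | _ | p <;> cases β <;>
    rfl

theorem dw_iZ (β : Bool) : dirW ((iZ β).map toO) d0 = d4 β := by
  funext p
  rcases p with _ | _ | _ | _ | p <;> cases β <;>
    rfl

theorem dw_tT (β : Bool) : dirW ((tT β).map toO) (d4 β) = d4 β := by
  funext p
  rcases p with _ | _ | _ | _ | p <;> cases β <;>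
    rfl

theorem dw_tZ (β : Bool) : dirW ((tZ β).map toO) (d4 β) = d4 β := by
  funext p
  rcases p with _ | _ | _ | _ | p <;> cases β <;>
    rfl

theorem dw_fT (β : Bool) : dirW (fT.map toO) (d4 β) = d2 β := by
  funext p
  rcases p with _ | _ | _ | _ | p <;> cases β <;>
    rfl

theorem dw_fZ (β : Bool) : dirW (fZ.map toO) (d4 β) = d2 β := by
  funext p
  rcases p with _ | _ | _ | _ | p <;> cases β <;>
    rfl

theorem dw_start (β : Bool) : dirW ((start β).map toO) d0 = d2 β := by
  funext p
  rcases p with _ | _ | p <;> cases β <;>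
    rfl

/-! ### the trees -/

/-- the minimum -/
def t0 : Tr := .node (.node .z (.leaf (-1) 0)) (.node (.leaf 1 0) .z)
/-- the end of the last finger -/
def g0 (β : Bool) : Tr := (dif fT fZ (d4 β) t0).sh

theorem c1 (β : Bool) : noC (dif fT fZ (d4 β) t0) = true := by cases β <;> decide +kernel
theorem c2 (β : Bool) : noC (dif (tT β) (tZ β) (d4 β) (g0 β)) = true := by
  cases β <;> decide +kernel
theorem c3 (β : Bool) : (Tr.add (dif (tT β) (tZ β) (d4 β) (g0 β)).sh
    (Tr.smul (- -4) 0 (g0 β))).isZ = true := by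
  cases β <;> decide +kernel
theorem c5 (β : Bool) : noC (dif (iT β) (iZ β) d0 (g0 β)) = true := by cases β <;> decide +kernel
theorem c7 (β : Bool) : (Tr.add (dif (iT β) (iZ β) d0 (g0 β)).sh
    (Tr.smul (-24) 0 (.leaf 1 0))).isZ = true := by
  cases β <;> decide +kernel

end Pool.Agent.K6.H17.RB
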