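import Pool.Agent.K6.H17.RB.Main

/-!
# The sequence of knots
-/

set_option autoImplicit false

namespace Pool.Agent.K6.H17.RB

open Pool.Agent.H835R2 Pool.Agent.H835R2.Knot Pool.Agent.H835R2.Flat Pool.Agent.Y466.FT
open Pool.Agent.K6.H17.LC (vn vn_inv vn_deg)

/-- the isotopy class of a diagram -/
noncomputable def cla (D : Word) : Option (Quot Step) :=
  if Closed D then some (Quot.mk Step D) else none

theorem CI_cla : CI cla := by
  intro x l r y m fl fr
  unfold cla
  by_cases h : Closed (x ++ l ++ y)
  · obtain ⟨h1, h2⟩ := iso_step m h fr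
    rw [if_pos h, if_pos h1, Quot.eqvGen_sound h2]
  · have h' : ¬ Closed (x ++ r ++ y) := fun h1 => h (iso_step m.symm h1 fl).1
    rw [if_neg h, if_neg h']

theorem iso_of_cla {D E : Word} (hD : Closed D) (h : cla D = cla E) : Isotopic D E := by
  unfold cla at h
  by_cases hE : Closed E
  · rw [if_pos hD, if_pos hE] at h
    exact Quot.eqvGen_exact (Option.some.inj h)
  · rw [if_pos hD, if_neg hE] at h
    simp at h

theorem switchAt_mid (a b : Word) (p : Piece) :
    switchAt {a.length} (a ++ p :: b) = a ++ p.switch :: b := by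
  unfold switchAt
  apply List.ext_getElem
  · simp
  · intro i h1 h2
    rw [List.getElem_mapIdx, List.getElem_append, List.getElem_append]
    simp only [Finset.mem_singleton]
    rcases lt_trichotomy i a.length with h | h | h
    · rw [dif_pos h, dif_pos h, if_neg (by omega)]
    · subst h
      simp
    · rw [dif_neg (by omega), dif_neg (by omega), if_neg (by omega)]
      rw [List.getElem_cons, List.getElem_cons, dif_neg (by omega), dif_neg (by omega)]

/-- the place of the crossing which is switched -/
def plc (β : Bool) (n : ℕ) : ℕ := (iT β ++ tn β n).length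

theorem switch_Ln (β : Bool) (n : ℕ) (w : Word) :
    switchAt {plc β n} (Ln β n ++ w) = iT β ++ tn β n ++ (fZ ++ w) := by
  have e : Ln β n ++ w = (iT β ++ tn β n) ++ Piece.pos 2 :: ([.pos 2, .death 1] ++ w) := by
    unfold Ln fT
    simp
  rw [e, plc, switchAt_mid]
  rfl

theorem mem_plc (β : Bool) (n : ℕ) (w : Word) : plc β n ∈ crossingSet (Ln β n ++ w) := by
  have e : Ln β n ++ w = (iT β ++ tn β n) ++ Piece.pos 2 :: ([.pos 2, .death 1] ++ w) := by
    unfold Ln fT
    simp
  unfold crossingSet
  rw [Finset.mem_filter, Finset.mem_range, e]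
  have hl : plc β n < (iT β ++ tn β n ++ Piece.pos 2 :: ([.pos 2, .death 1] ++ w)).length := by
    unfold plc
    simp only [List.length_append, List.length_cons]
    omega
  refine ⟨hl, hl, ?_⟩
  simp only [plc, List.getElem_append, List.length_append]
  simp [Piece.isCrossing]

theorem iso_Ln (β : Bool) (n : ℕ) {w : Word} (hw : Closed (start β ++ w)) :
    Isotopic (switchAt {plc β n} (Ln β n ++ w)) (start β ++ w) := by
  rw [switch_Ln]
  have h := rF CI_cla β n w
  exact (iso_of_cla hw h.symm).symm

/-- the next piece -/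
def nxw (β : Bool) (n : ℕ) : Word := [.birth 0 β, .neg 1] ++ tn β n ++ fT

theorem Ln_nxw (β : Bool) (n : ℕ) (w : Word) : Ln β n ++ w = start β ++ (nxw β n ++ w) := by
  unfold Ln nxw iT start
  simp

/-- many pieces -/
def sqw (β : Bool) (n : ℕ) (w : Word) : ℕ → Word
  | 0 => w
  | k + 1 => nxw β n ++ sqw β n w k

theorem start_sqw (β : Bool) (n : ℕ) (w : Word) (k : ℕ) :
    start β ++ sqw β n w (k + 1) = Ln β n ++ sqw β n w k := (Ln_nxw β n _).symm

/-- Every knot diagram begins with a maximum. -/
theorem exists_start {D : Word} (hD : IsKnot D) : ∃ β w, D = start β ++ w := by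
  cases D with
  | nil => exact absurd hD.2 (by decide)
  | cons p w =>
    have h : p.Fits Front.empty := hD.1.1.1
    cases p with
    | birth i b =>
      have h : i ≤ 0 := h
      obtain rfl : i = 0 := by omega
      exact ⟨b, w, rfl⟩
    | death i =>
      have h : i + 2 ≤ 0 ∧ _ := h
      omega
    | pos i =>
      have h : i + 2 ≤ 0 := h
      omega
    | neg i =>
      have h : i + 2 ≤ 0 := h
      omega

theorem fam (n : ℕ) {D : Word} (hD : IsKnot D) : ∃ E : ℕ → Word, E 0 = D ∧ ∀ k,
    IsKnot (E k) ∧ crossings (E k) = crossings D + k * (5 * n + 3) ∧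
    (∀ (A : Type) [AddCommGroup A] (v : Word → A), IsInvariant v → DegreeLE (n + 1) v →
      v (E k) = v D) ∧
    vn (n + 2) (E k) = vn (n + 2) D + k * (24 * (-4) ^ n) ∧
    ∃ j ∈ crossingSet (E (k + 1)), Isotopic (switchAt {j} (E (k + 1))) (E k) := by
  obtain ⟨β, w, rfl⟩ := exists_start hD
  have hk : ∀ k, IsKnot (start β ++ sqw β n w k) := by
    intro k
    induction k with
    | zero => exact hD
    | succ k ih =>
      rw [start_sqw]
      exact isKnot_Ln β n ih
  refine ⟨fun k => start β ++ sqw β n w k, rfl, fun k => ⟨hk k, ?_, ?_, ?_, ?_⟩⟩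
  · induction k with
    | zero => simp [sqw]
    | succ k ih =>
      show crossings (start β ++ sqw β n w (k + 1)) = _
      rw [start_sqw, crossings_Ln, ih]
      ring
  · intro A _ v hv hn
    induction k with
    | zero => rfl
    | succ k ih =>
      show v (start β ++ sqw β n w (k + 1)) = _
      rw [start_sqw, Ln_triv hv hn β (hk k)]
      exact ih
  · induction k with
    | zero => simp [sqw]
    | succ k ih =>
      have h := coeff_diff β n (hk k)
      show vn (n + 2) (start β ++ sqw β n w (k + 1)) = _
      have ih' : vn (n + 2) (start β ++ sqw β n w k) =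
        vn (n + 2) (start β ++ w) + k * (24 * (-4) ^ n) := ih
      have h' : vn (n + 2) (Ln β n ++ sqw β n w k) - vn (n + 2) (start β ++ sqw β n w k) =
        24 * (-4) ^ n := h
      rw [start_sqw]
      push_cast
      linarith
  · refine ⟨plc β n, ?_, ?_⟩
    · show plc β n ∈ crossingSet (start β ++ sqw β n w (k + 1))
      rw [start_sqw]
      exact mem_plc β n _
    · show Isotopic (switchAt {plc β n} (start β ++ sqw β n w (k + 1))) _
      rw [start_sqw]
      exact iso_Ln β n (hk k).1

end Pool.Agent.K6.H17.RB
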