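import Pool.Agent.K6.H17.LC.Vas

/-!
# Evaluation of the state model to first order

Functions of the spins of finitely many strands are given by binary trees; the entries `a + b e`
are pairs of integers, `e ^ 2 = 0`.
-/

set_option autoImplicit false

namespace Pool.Agent.K6.H17.RB

open Pool.Agent.H835R2.Knot (Piece Word)
open Pool.Agent.H838R2.SL
open Pool.Agent.H838R2.Jones
open Pool.Agent.Helper454.Wh (insD delD swpD noD OPiece OWord)

/-- trees -/
inductive Tr : Type
  | z : Tr
  | leaf (a b : ℤ) : Tr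
  | node (l r : Tr) : Tr

namespace Tr

/-- the branch of the spin `false` -/
def lo : Tr → Tr
  | z => z
  | leaf a b => leaf a b
  | node l _ => l
/-- the branch of the spin `true` -/
def hi : Tr → Tr
  | z => z
  | leaf a b => leaf a b
  | node _ r => r
/-- a node, or zero -/
def mk : Tr → Tr → Tr
  | z, z => z
  | l, r => node l r
/-- adding a constant -/
def addc (a b : ℤ) : Tr → Tr
  | z => leaf a b
  | leaf c d => leaf (a + c) (b + d)
  | node l r => node (addc a b l) (addc a b r)
/-- the sum -/
def add : Tr → Tr → Tr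
  | z, t => t
  | leaf a b, t => t.addc a b
  | node l r, t => node (add l t.lo) (add r t.hi)
/-- the product with `p + q e` -/
def smul (p q : ℤ) : Tr → Tr
  | z => z
  | leaf a b => leaf (p * a) (p * b + q * a)
  | node l r => node (smul p q l) (smul p q r)
/-- a maximum -/
def bT : ℕ → Tr → Tr
  | 0, t => add (smul (-1) 1 t.hi.lo) t.lo.hi
  | i + 1, t => mk (bT i t.lo) (bT i t.hi)
/-- a minimum -/
def dT : ℕ → Tr → Tr
  | 0, t => mk (mk z (smul (-1) (-1) t)) (mk t z)
  | i + 1, t => mk (dT i t.lo) (dT i t.hi)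
/-- a crossing -/
def xT (c : (ℤ × ℤ) × (ℤ × ℤ)) (i : ℕ) (t : Tr) : Tr :=
  add (smul c.1.1 c.1.2 t) (smul c.2.1 c.2.2 (dT i (bT i t)))
/-- the coefficients of the crossings -/
def cpT (b : Bool) : (ℤ × ℤ) × (ℤ × ℤ) := if b then ((-1, -1), (-1, -2)) else ((-1, 2), (-1, 1))
/-- the coefficients of the crossings -/
def cnT (b : Bool) : (ℤ × ℤ) × (ℤ × ℤ) := if b then ((-1, 1), (-1, 2)) else ((-1, -2), (-1, -1))
/-- a piece -/
def pT : Piece → (ℕ → Bool) → Tr → Tr
  | .birth i _, _, t => bT i t
  | .death i, _, t => dT i t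
  | .pos i, d, t => xT (cpT (d i == d (i + 1))) i t
  | .neg i, d, t => xT (cnT (d i == d (i + 1))) i t
/-- a word -/
def opT : Word → (ℕ → Bool) → Tr → Tr
  | [], _, t => t
  | p :: w, d, t => pT p d (opT w (nxt (toO p) d) t)
/-- all entries vanish -/
def isZ : Tr → Bool
  | z => true
  | leaf a b => decide (a = 0) && decide (b = 0)
  | node l r => isZ l && isZ r
/-- the coefficients of `e`, as numbers -/
def sh : Tr → Tr
  | z => z
  | leaf _ b => leaf b 0
  | node l r => mk (sh l) (sh r)
/-- the constant coefficients -/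
def co : Tr → (ℕ → Bool) → ℤ
  | z, _ => 0
  | leaf a _, _ => a
  | node l r, σ => if σ 0 then co r (fun k => σ (k + 1)) else co l (fun k => σ (k + 1))

section
variable {S : Type} [CommRing S] (e : S)

/-- the function of a tree -/
def ev : Tr → F S
  | z, _ => 0
  | leaf a b, _ => (a : S) + (b : S) * e
  | node l r, σ => if σ 0 then ev r (fun k => σ (k + 1)) else ev l (fun k => σ (k + 1))

/-- a further spin -/
def cons (b : Bool) (τ : ℕ → Bool) : ℕ → Bool
  | 0 => b
  | k + 1 => τ k

theorem cons_tail (σ : ℕ → Bool) : cons (σ 0) (fun k => σ (k + 1)) = σ := by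
  funext k
  cases k <;> rfl

theorem ev_cons (t : Tr) (b : Bool) (τ : ℕ → Bool) :
    ev e t (cons b τ) = if b then ev e t.hi τ else ev e t.lo τ := by
  cases t with
  | z => simp [ev, hi, lo]
  | leaf a c => simp [ev, hi, lo]
  | node l r => rfl

theorem ev_mk (l r : Tr) (σ : ℕ → Bool) : ev e (mk l r) σ =
    if σ 0 then ev e r (fun k => σ (k + 1)) else ev e l (fun k => σ (k + 1)) := by
  cases l with
  | z => cases r with
    | z => simp [ev, mk]
    | leaf a b => rfl
    | node l r => rfl
  | leaf a b => rfl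
  | node l r => rfl

theorem ev_addc (a b : ℤ) (t : Tr) (σ : ℕ → Bool) :
    ev e (addc a b t) σ = (a : S) + (b : S) * e + ev e t σ := by
  induction t generalizing σ with
  | z => simp [ev, addc]
  | leaf c d => simp only [ev, addc]; push_cast; ring
  | node l r ihl ihr =>
    show (if σ 0 then ev e (addc a b r) _ else ev e (addc a b l) _) = _ + (if σ 0 then _ else _)
    rw [ihl, ihr]
    split_ifs <;> rfl

theorem ev_split (t : Tr) (σ : ℕ → Bool) : ev e t σ =
    if σ 0 then ev e t.hi (fun k => σ (k + 1)) else ev e t.lo (fun k => σ (k + 1)) := by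
  rw [← ev_cons, cons_tail]

theorem ev_add (t u : Tr) (σ : ℕ → Bool) : ev e (add t u) σ = ev e t σ + ev e u σ := by
  induction t generalizing u σ with
  | z => simp [ev, add]
  | leaf a b => rw [add, ev_addc]; rfl
  | node l r ihl ihr =>
    show (if σ 0 then ev e (add r u.hi) _ else ev e (add l u.lo) _) = (if σ 0 then _ else _) + _
    rw [ihl, ihr, ev_split e u σ]
    split_ifs <;> rfl

theorem ev_smul {he : e * e = 0} (p q : ℤ) (t : Tr) (σ : ℕ → Bool) :
    ev e (smul p q t) σ = ((p : S) + (q : S) * e) * ev e t σ := by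
  induction t generalizing σ with
  | z => simp [ev, smul]
  | leaf a b =>
    simp only [ev, smul]
    push_cast
    linear_combination -((q : S) * (b : S)) * he
  | node l r ihl ihr =>
    show (if σ 0 then ev e (smul p q r) _ else ev e (smul p q l) _) = _ * (if σ 0 then _ else _)
    rw [ihl, ihr]
    split_ifs <;> rfl

theorem ins_zero (b : Bool) (σ : ℕ → Bool) : insD 0 b σ = cons b (cons (!b) σ) := by
  funext k
  match k with
  | 0 => simp [insD, cons]
  | 1 => simp [insD, cons]
  | k + 2 => simp [insD, cons]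

theorem ins_succ (i : ℕ) (b : Bool) (σ : ℕ → Bool) :
    insD (i + 1) b σ = cons (σ 0) (insD i b (fun k => σ (k + 1))) := by
  funext k
  cases k with
  | zero => simp [insD, cons]
  | succ k =>
    simp only [insD, cons]
    split_ifs <;> first | rfl | (exfalso; omega) | (congr 1; omega)

theorem del_succ (i : ℕ) (σ : ℕ → Bool) :
    delD (i + 1) σ = cons (σ 0) (delD i (fun k => σ (k + 1))) := by
  funext k
  cases k with
  | zero => simp [delD, cons]
  | succ k =>
    simp only [delD, cons]
    split_ifs <;> first | rfl | (exfalso; omega)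

variable {e} (he : e * e = 0)
include he

theorem ev_bT (i : ℕ) (t : Tr) (σ : ℕ → Bool) : ev e (bT i t) σ = Bl (1 - e) i (ev e t) σ := by
  induction i generalizing t σ with
  | zero =>
    rw [bT, ev_add, ev_smul (he := he), Bl_apply, ins_zero, ins_zero]
    simp only [ev_cons]
    simp
    ring
  | succ i ih =>
    rw [bT, ev_mk, ih, ih, Bl_apply, Bl_apply, Bl_apply, ins_succ, ins_succ, ev_cons, ev_cons]
    split_ifs <;> rfl

theorem ev_dT (i : ℕ) (t : Tr) (σ : ℕ → Bool) : ev e (dT i t) σ = Dl (1 + e) i (ev e t) σ := by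
  induction i generalizing t σ with
  | zero =>
    have hd : delD 0 σ = fun k => σ (k + 1 + 1) := by
      funext k
      simp [delD]
    rw [dT, ev_mk, ev_mk, ev_mk, ev_smul (he := he), Dl_apply, hd]
    simp only [ev]
    cases h0 : σ 0 <;> cases h1 : σ (0 + 1) <;> simp
    ring
  | succ i ih =>
    rw [dT, ev_mk, ih, ih, Dl_apply, Dl_apply, Dl_apply, del_succ, ev_cons]
    split_ifs <;> rfl

theorem ev_xT (c : (ℤ × ℤ) × (ℤ × ℤ)) (c' : S × S) (h1 : c'.1 = (c.1.1 : S) + (c.1.2 : S) * e)
    (h2 : c'.2 = (c.2.1 : S) + (c.2.2 : S) * e) (i : ℕ) (t : Tr) (σ : ℕ → Bool) :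
    ev e (xT c i t) σ = Xl (1 + e) (1 - e) c' i (ev e t) σ := by
  have hb : ev e (bT i t) = Bl (1 - e) i (ev e t) := funext (ev_bT he i t)
  rw [xT, ev_add, ev_smul (he := he), ev_smul (he := he), ev_dT he, hb, Xl_apply, ← h1, ← h2]
  rfl

theorem ev_pT (p : Piece) (d : ℕ → Bool) (t : Tr) (σ : ℕ → Bool) :
    ev e (pT p d t) σ = opP (1 + e) (1 - e) (toO p) d (ev e t) σ := by
  cases p with
  | birth i b => exact ev_bT he i t σ
  | death i => exact ev_dT he i t σ
  | pos i =>
    refine ev_xT he _ _ ?_ ?_ i t σ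
    · cases d i == d (i + 1)
      · show -(1 - e) ^ 2 = ((-1 : ℤ) : S) + ((2 : ℤ) : S) * e
        push_cast
        linear_combination (-1 : S) * he
      · show -(1 + e) = ((-1 : ℤ) : S) + ((-1 : ℤ) : S) * e
        push_cast
        ring
    · cases d i == d (i + 1)
      · show -(1 - e) = ((-1 : ℤ) : S) + ((1 : ℤ) : S) * e
        push_cast
        ring
      · show -(1 + e) ^ 2 = ((-1 : ℤ) : S) + ((-2 : ℤ) : S) * e
        push_cast
        linear_combination (-1 : S) * he
  | neg i =>
    refine ev_xT he _ _ ?_ ?_ i t σ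
    · cases d i == d (i + 1)
      · show -(1 + e) ^ 2 = ((-1 : ℤ) : S) + ((-2 : ℤ) : S) * e
        push_cast
        linear_combination (-1 : S) * he
      · show -(1 - e) = ((-1 : ℤ) : S) + ((1 : ℤ) : S) * e
        push_cast
        ring
    · cases d i == d (i + 1)
      · show -(1 + e) = ((-1 : ℤ) : S) + ((-1 : ℤ) : S) * e
        push_cast
        ring
      · show -(1 - e) ^ 2 = ((-1 : ℤ) : S) + ((2 : ℤ) : S) * e
        push_cast
        linear_combination (-1 : S) * he

theorem ev_opT (w : Word) (d : ℕ → Bool) (t : Tr) :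
    ev e (opT w d t) = opD (1 + e) (1 - e) w d (ev e t) := by
  induction w generalizing d with
  | nil => rfl
  | cons p w ih =>
    funext σ
    rw [opT, ev_pT he, ih]
    rfl

end

/-! ### reading off -/

theorem co_isZ {t : Tr} (h : t.isZ = true) (σ : ℕ → Bool) : t.co σ = 0 := by
  induction t generalizing σ with
  | z => rfl
  | leaf a b =>
    simp only [isZ, Bool.and_eq_true, decide_eq_true_eq] at h
    exact h.1
  | node l r ihl ihr =>
    simp only [isZ, Bool.and_eq_true] at h
    show (if σ 0 then _ else _) = 0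
    rw [ihl h.1, ihr h.2]
    simp

theorem co_addc (a b : ℤ) (t : Tr) (σ : ℕ → Bool) : (addc a b t).co σ = a + t.co σ := by
  induction t generalizing σ with
  | z => simp [co, addc]
  | leaf c d => rfl
  | node l r ihl ihr =>
    show (if σ 0 then (addc a b r).co _ else (addc a b l).co _) = _ + (if σ 0 then _ else _)
    rw [ihl, ihr]
    split_ifs <;> rfl

theorem co_split (t : Tr) (σ : ℕ → Bool) : t.co σ =
    if σ 0 then t.hi.co (fun k => σ (k + 1)) else t.lo.co (fun k => σ (k + 1)) := by
  cases t with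
  | z => simp [co, hi, lo]
  | leaf a c => simp [co, hi, lo]
  | node l r => rfl

theorem co_add (t u : Tr) (σ : ℕ → Bool) : (add t u).co σ = t.co σ + u.co σ := by
  induction t generalizing u σ with
  | z => simp [co, add]
  | leaf a b => rw [add, co_addc]; rfl
  | node l r ihl ihr =>
    show (if σ 0 then (add r u.hi).co _ else (add l u.lo).co _) = (if σ 0 then _ else _) + _
    rw [ihl, ihr, co_split u σ]
    split_ifs <;> rfl

theorem co_smul (p : ℤ) (t : Tr) (σ : ℕ → Bool) : (smul p 0 t).co σ = p * t.co σ := by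
  induction t generalizing σ with
  | z => simp [co, smul]
  | leaf a b => simp only [co, smul]
  | node l r ihl ihr =>
    show (if σ 0 then (smul p 0 r).co _ else (smul p 0 l).co _) = _ * (if σ 0 then _ else _)
    rw [ihl, ihr]
    split_ifs <;> rfl

end Tr

end Pool.Agent.K6.H17.RB
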